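import Mathlib
import Pool.Agent.Helper668.GV
import Pool.Agent.Helper668.GW

set_option autoImplicit false

open Filter Topology

namespace Pool.Agent.Results.MP_010de0_ag.UnboundedGenerators

lemma algMap_injective (R : Type) [CommRing R] [IsDomain R] :
    Function.Injective (algebraMap R (AlgebraicClosure (FractionRing R))) := by
  rw [IsScalarTower.algebraMap_eq R (FractionRing R) (AlgebraicClosure (FractionRing R))]
  exact (algebraMap (FractionRing R) (AlgebraicClosure (FractionRing R))).injective.comp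
    (IsFractionRing.injective R (FractionRing R))

/-- The ring `R^{1/p^e}` of `p^e`-th roots of elements of the domain `R` of characteristic `p`,
inside an algebraic closure of its fraction field, as an `R`-subalgebra. -/
noncomputable def rootRing (p e : ℕ) [Fact p.Prime] (R : Type) [CommRing R] [IsDomain R]
    [CharP R p] : Subalgebra R (AlgebraicClosure (FractionRing R)) where
  carrier := {x | ∃ r : R, algebraMap R (AlgebraicClosure (FractionRing R)) r = x ^ (p ^ e)}
  mul_mem' := by
    rintro a b ⟨r, hr⟩ ⟨s, hs⟩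
    exact ⟨r * s, by rw [map_mul, hr, hs, mul_pow]⟩
  add_mem' := by
    rintro a b ⟨r, hr⟩ ⟨s, hs⟩
    have := charP_of_injective_algebraMap (algMap_injective R) p
    exact ⟨r + s, by rw [map_add, hr, hs, add_pow_char_pow]⟩
  algebraMap_mem' := by
    intro r
    exact ⟨r ^ (p ^ e), by rw [map_pow]⟩

/-- `R^{1/p^e}`, viewed as an `R`-module by the inclusion `R ⊆ R^{1/p^e}`. -/
def RootMod (p e : ℕ) [Fact p.Prime] (R : Type) [CommRing R] [IsDomain R] [CharP R p] : Type :=
  rootRing p e R

noncomputable instance instAddCommGroupRootMod (p e : ℕ) [Fact p.Prime] (R : Type) [CommRing R]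
    [IsDomain R] [CharP R p] : AddCommGroup (RootMod p e R) :=
  (inferInstance : AddCommGroup (rootRing p e R))

noncomputable instance instModuleRootMod (p e : ℕ) [Fact p.Prime] (R : Type) [CommRing R]
    [IsDomain R] [CharP R p] : Module R (RootMod p e R) :=
  (inferInstance : Module R (rootRing p e R))

/-- `R` is F-finite: `R^{1/p^e}` is a finitely generated `R`-module for every `e ≥ 1`. -/
def IsFFinite (p : ℕ) [Fact p.Prime] (R : Type) [CommRing R] [IsDomain R] [CharP R p] : Prop :=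
  ∀ e : ℕ, 1 ≤ e → Module.Finite R (RootMod p e R)

/-- The minimal number of generators of the finitely generated `R`-module `M`. -/
noncomputable def minGen (R M : Type) [CommRing R] [AddCommGroup M] [Module R M] : ℕ :=
  sInf {n : ℕ | ∃ g : Fin n → M, Submodule.span R (Set.range g) = ⊤}

/-- `μ_e`, the minimal number of generators of the `R`-module `Hom_R(R^{1/p^e}, R)`. -/
noncomputable def mu (p e : ℕ) [Fact p.Prime] (R : Type) [CommRing R] [IsDomain R]
    [CharP R p] : ℕ :=
  minGen R (RootMod p e R →ₗ[R] R)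

/-- There is a Noetherian local normal domain `R` of prime characteristic `p` and of finite Krull
dimension `d`, with perfect residue field, such that every `R^{1/p^e}` is a finitely generated
`R`-module, for which `μ_e ≥ c p^{e(d+1)}` with a constant `c > 0`; in particular `μ_e / p^{ed}`
tends to infinity and the sequence `μ_e / p^{ed}` does not converge. -/
theorem result :
    ∃ (p : ℕ) (_ : Fact p.Prime) (R : Type) (_ : CommRing R) (_ : IsDomain R)
      (_ : IsLocalRing R) (_ : IsNoetherianRing R) (_ : IsIntegrallyClosed R) (_ : CharP R p)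
      (d : ℕ),
      ringKrullDim R = d ∧
      PerfectField (IsLocalRing.ResidueField R) ∧
      IsFFinite p R ∧
      (∀ e : ℕ, 1 ≤ e → Module.Finite R (RootMod p e R →ₗ[R] R)) ∧
      (∃ c : ℝ, 0 < c ∧ ∀ e : ℕ, 1 ≤ e → c * (p : ℝ) ^ (e * (d + 1)) ≤ mu p e R) ∧
      Tendsto (fun e : ℕ => (mu p e R : ℝ) / (p : ℝ) ^ (e * d)) atTop atTop ∧
      ¬ ∃ L : ℝ, Tendsto (fun e : ℕ => (mu p e R : ℝ) / (p : ℝ) ^ (e * d)) atTop (𝓝 L) := by
  obtain ⟨R, i1, i2, i3, i4, i5, i6, hdim, hres, hfin, hb⟩ :=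
    Pool.Agent.Helper668.G.BD.package Pool.Agent.Helper668.G.bdO
      (fun e m hm he => ⟨Pool.Agent.Helper668.G.hdO e m hm he⟩)
  have hd0 : 0 ≤ ringKrullDim R := ringKrullDim_nonneg_of_nontrivial
  obtain ⟨d, hd⟩ : ∃ d : ℕ, ringKrullDim R = d := by
    have h1 : ringKrullDim R ≠ ⊥ := by
      intro h; rw [h] at hd0; simp at hd0
    obtain ⟨x, hx⟩ := WithBot.ne_bot_iff_exists.mp h1
    rw [← hx] at hdim
    have h2 : x ≤ ((9 : ℕ) : ℕ∞) := WithBot.coe_le_coe.mp hdim
    have h3 : x ≠ ⊤ := (lt_of_le_of_lt h2 (ENat.natCast_lt_top 9)).ne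
    obtain ⟨d, hd⟩ := ENat.ne_top_iff_exists.mp h3
    exact ⟨d, by rw [← hx, ← hd]; rfl⟩
  have hd9 : d ≤ 9 := by
    rw [hd] at hdim; exact_mod_cast hdim
  have hfin' : ∀ e : ℕ, Module.Finite R (RootMod 3 e R) := hfin
  have hhom : ∀ e : ℕ, Module.Finite R (RootMod 3 e R →ₗ[R] R) := by
    intro e
    have := hfin' e
    infer_instance
  have hmu : ∀ e : ℕ, 1 ≤ e → ((3 : ℝ) ^ e) ^ 10 / 15 ^ 5 ≤ mu 3 e R := by
    intro e he
    have := hhom e
    have hne : {n : ℕ | ∃ g : Fin n → (RootMod 3 e R →ₗ[R] R),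
        Submodule.span R (Set.range g) = ⊤}.Nonempty := by
      obtain ⟨n, s, hs⟩ := Module.Finite.exists_fin (R := R) (M := (RootMod 3 e R →ₗ[R] R))
      exact ⟨n, s, hs⟩
    obtain ⟨g, hg⟩ := Nat.sInf_mem hne
    exact hb e he _ g hg
  have hlow : ∀ e : ℕ, 1 ≤ e → (1 / 15 ^ 5 : ℝ) * (3 : ℝ) ^ (e * (d + 1)) ≤ mu 3 e R := by
    intro e he
    refine le_trans ?_ (hmu e he)
    rw [div_mul_eq_mul_div, one_mul]
    apply div_le_div_of_nonneg_right _ (by positivity)
    rw [← pow_mul]
    exact pow_le_pow_right₀ (by norm_num) (Nat.mul_le_mul_left e (by omega))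
  have hlim : Tendsto (fun e : ℕ => (mu 3 e R : ℝ) / (3 : ℝ) ^ (e * d)) atTop atTop := by
    have h1 : Tendsto (fun e : ℕ => (1 / 15 ^ 5 : ℝ) * (3 : ℝ) ^ e) atTop atTop :=
      (tendsto_pow_atTop_atTop_of_one_lt (by norm_num)).const_mul_atTop (by positivity)
    refine tendsto_atTop_mono' atTop ?_ h1
    filter_upwards [eventually_ge_atTop 1] with e he
    rw [le_div_iff₀ (by positivity), mul_assoc, ← pow_add]
    have := hlow e he
    rwa [Nat.mul_succ, add_comm] at this
  refine ⟨3, ⟨Nat.prime_three⟩, R, i1, i2, i3, i4, i5, i6, d, hd, ?_, fun e _ => hfin' e,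
    fun e _ => hhom e, ⟨1 / 15 ^ 5, by positivity, ?_⟩, ?_, ?_⟩
  · infer_instance
  · exact_mod_cast hlow
  · exact_mod_cast hlim
  · rintro ⟨L, hL⟩
    exact not_tendsto_nhds_of_tendsto_atTop hlim L (by exact_mod_cast hL)

end Pool.Agent.Results.MP_010de0_ag.UnboundedGenerators
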